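import Pool.Agent.Work.MP_223b32_es.Interface

/-!
# Block RHOP: a place above `p` of the ring of algebraic integers

After the block RHO of helper50 (Work/MP_223b32_tc_helper50/RHO.lean).
-/

namespace Pool.Agent.Work.ES

open Finset Polynomial
open Pool.Agent.Work.TL (AA Om)

namespace RHOP

theorem lift_field (p : ℕ) [Fact p.Prime] (k : Type) [Field k] (hp : (p : k) = 0)
    (hint : ∀ x : k, IsIntegral ℤ x) : Nonempty (k →+* AlgebraicClosure (ZMod p)) := by
  have hc : CharP k p := by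
    obtain ⟨r, hr⟩ := CharP.exists k
    have h1 : r ∣ p := (CharP.cast_eq_zero_iff k r p).1 hp
    have h2 : r ≠ 1 := CharP.char_ne_one k r
    have h3 : r = p := ((Fact.out : p.Prime).eq_one_or_self_of_dvd r h1).resolve_left h2
    rwa [h3] at hr
  let _ : Algebra (ZMod p) k := ZMod.algebra _ p
  have halg : Algebra.IsAlgebraic (ZMod p) k := by
    constructor
    intro x
    have hy3 : IsIntegral (ZMod p) x := by
      obtain ⟨f, hf, hf0⟩ := hint x
      refine ⟨f.map (Int.castRingHom (ZMod p)), hf.map _, ?_⟩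
      rw [Polynomial.eval₂_map]
      rw [← hf0]
      congr 1
      exact RingHom.ext_int _ _
    exact hy3.isAlgebraic
  exact ⟨((IsAlgClosed.lift (R := ZMod p) (S := k)
    (M := AlgebraicClosure (ZMod p)) : _ →ₐ[ZMod p] _) : _ →+* _)⟩

theorem not_unit (p : ℕ) [Fact p.Prime] : ¬ IsUnit (p : integralClosure ℤ ℂ) := by
  intro h
  have hp := (Fact.out : p.Prime)
  obtain ⟨u, hu⟩ := h.exists_right_inv
  have hu' : (p : ℂ) * (u : ℂ) = 1 := by
    have := congrArg (algebraMap (integralClosure ℤ ℂ) ℂ) hu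
    rw [map_mul, map_natCast, map_one] at this
    exact this
  have hp0 : (p : ℂ) ≠ 0 := by exact_mod_cast hp.ne_zero
  have hval : (u : ℂ) = ((1 / p : ℚ) : ℂ) := by
    push_cast
    field_simp
    linear_combination hu'
  have hint : IsIntegral ℤ (u : ℂ) := u.2
  have hq : IsIntegral ℤ ((1 / p : ℚ)) := by
    rw [hval] at hint
    have h3 : IsIntegral ℤ (algebraMap ℚ ℂ (1 / p : ℚ)) := hint
    exact (isIntegral_algebraMap_iff (algebraMap ℚ ℂ).injective).1 h3
  obtain ⟨z, hz⟩ := (IsIntegrallyClosed.isIntegral_iff (R := ℤ) (K := ℚ)).1 hq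
  have hz' : (z : ℚ) = 1 / p := by simpa using hz
  have hpq : (p : ℚ) ≠ 0 := by exact_mod_cast hp.ne_zero
  have h4 : (p * z : ℚ) = 1 := by rw [hz']; field_simp
  have h5 : (p : ℤ) * z = 1 := by exact_mod_cast h4
  have h6 : (p : ℤ) ∣ 1 := ⟨z, h5.symm⟩
  have h7 : p ∣ 1 := by exact_mod_cast h6
  exact hp.one_lt.ne' (Nat.dvd_one.1 h7)

end RHOP

theorem stmt_RHOP : Stmt_RHOP := by
  intro p _
  have hne : Ideal.span {(p : integralClosure ℤ ℂ)} ≠ ⊤ := by
    rw [Ne, Ideal.span_singleton_eq_top]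
    exact RHOP.not_unit p
  obtain ⟨M, hM, hle⟩ := Ideal.exists_le_maximal _ hne
  have hpM : (p : integralClosure ℤ ℂ) ∈ M := hle (Ideal.subset_span rfl)
  have hp0 : (p : integralClosure ℤ ℂ ⧸ M) = 0 := by
    have := (Ideal.Quotient.eq_zero_iff_mem (I := M)).2 hpM
    rw [map_natCast] at this
    exact this
  let _ : Field (integralClosure ℤ ℂ ⧸ M) := Ideal.Quotient.field M
  obtain ⟨f⟩ := RHOP.lift_field p (integralClosure ℤ ℂ ⧸ M) hp0 (by
    intro x
    obtain ⟨y, rfl⟩ := Ideal.Quotient.mk_surjective x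
    have hy : IsIntegral ℤ y := integralClosure.isIntegral y
    exact hy.map (Ideal.Quotient.mkₐ ℤ M))
  exact ⟨f.comp (Ideal.Quotient.mk M)⟩

end Pool.Agent.Work.ES
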