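import Pool.Agent.Work.MP_223b32_es.Interface
import Pool.Agent.Work.MP_223b32_tc_helper10.EP

/-!
# EPC: the Euler product over the polynomial ring of a finite field, complex values

Copy of the block EP of helper10 (Work/MP_223b32_tc_helper10/EP.lean) with complex values.
-/

namespace Pool.Agent.Work.ES.EPC

open Finset Polynomial UniqueFactorizationMonoid Pool.Agent.Work.TC Pool.Agent.Work.TC.EP

section

variable {F : Type} [Field F] [Fintype F]

theorem msum_eq (χ : F[X] →* ℂ) (m : ℕ) : msumC χ m = ∑ h ∈ M F m, χ h := by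
  classical
  unfold msumC M
  rw [Finset.sum_image fun c _ d _ h => mon_injective m h]

theorem lam_eq (χ : F[X] →* ℂ) {m k : ℕ} (hk : 1 ≤ k) (hkm : k ≤ m) :
    lamC χ k = ∑ π ∈ P F m, if π.natDegree ∣ k then
      (π.natDegree : ℂ) * χ π ^ (k / π.natDegree) else 0 := by
  classical
  unfold lamC
  have : {π : F[X] | π.Monic ∧ Irreducible π ∧ π.natDegree ∣ k} =
      ↑((P F m).filter fun π => π.natDegree ∣ k) := by
    ext π
    simp only [Set.mem_ofPred_eq, Finset.coe_filter, mem_P]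
    constructor
    · rintro ⟨h1, h2, h3⟩
      exact ⟨⟨h1, h2, (Nat.le_of_dvd (by omega) h3).trans hkm⟩, h3⟩
    · rintro ⟨⟨h1, h2, -⟩, h3⟩
      exact ⟨h1, h2, h3⟩
  rw [this, finsum_mem_coe_finset, Finset.sum_filter]

open Classical in
/-- The multiples of `π ^ i`. -/
theorem sum_dvd (χ : F[X] →* ℂ) {m i : ℕ} {π : F[X]} (hπ : π.Monic) :
    ∑ h ∈ M F m, (if π ^ i ∣ h then χ h else 0) =
      if i * π.natDegree ≤ m then χ π ^ i * msumC χ (m - i * π.natDegree) else 0 := by
  classical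
  rw [← Finset.sum_filter]
  have hpi : (π ^ i).Monic := hπ.pow i
  split_ifs with hle
  · rw [msum_eq, Finset.mul_sum]
    symm
    refine Finset.sum_bij (fun g _ => π ^ i * g) ?_ ?_ ?_ ?_
    · intro g hg
      rw [mem_M] at hg
      rw [Finset.mem_filter, mem_M]
      refine ⟨⟨hpi.mul hg.1, ?_⟩, dvd_mul_right _ _⟩
      rw [hpi.natDegree_mul hg.1, natDegree_pow, hg.2]
      omega
    · intro g _ g' _ h
      exact mul_left_cancel₀ hpi.ne_zero h
    · intro h hh
      rw [Finset.mem_filter, mem_M] at hh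
      obtain ⟨⟨h1, h2⟩, g, rfl⟩ := hh
      have hg : g.Monic := hpi.of_mul_monic_left h1
      refine ⟨g, ?_, rfl⟩
      rw [mem_M]
      refine ⟨hg, ?_⟩
      rw [hpi.natDegree_mul hg, natDegree_pow] at h2
      omega
    · intro g _
      rw [map_mul, map_pow]
  · refine Finset.sum_eq_zero fun h hh => ?_
    exfalso
    rw [Finset.mem_filter, mem_M] at hh
    obtain ⟨⟨h1, h2⟩, h3⟩ := hh
    have := natDegree_le_of_dvd h3 h1.ne_zero
    rw [natDegree_pow, h2] at this
    exact hle this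

/-- Reindexing the multiples of `d`. -/
theorem sum_mult {m d : ℕ} (hd : 1 ≤ d) (G : ℕ → ℂ) :
    ∑ k ∈ Icc 1 m, (if d ∣ k then G k else 0) =
      ∑ i ∈ Icc 1 m, if i * d ≤ m then G (i * d) else 0 := by
  classical
  rw [← Finset.sum_filter, ← Finset.sum_filter]
  symm
  refine Finset.sum_bij (fun i _ => i * d) ?_ ?_ ?_ ?_
  · intro i hi
    rw [Finset.mem_filter, Finset.mem_Icc] at hi ⊢
    refine ⟨⟨Nat.mul_pos (by omega) (by omega), hi.2⟩, dvd_mul_left _ _⟩
  · intro i _ j _ h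
    exact Nat.eq_of_mul_eq_mul_right (by omega) h
  · intro k hk
    rw [Finset.mem_filter, Finset.mem_Icc] at hk
    obtain ⟨⟨h1, h2⟩, i, rfl⟩ := hk
    refine ⟨i, ?_, mul_comm _ _⟩
    rw [Finset.mem_filter, Finset.mem_Icc, mul_comm i d]
    refine ⟨⟨Nat.pos_of_ne_zero (by rintro rfl; simp at h1), ?_⟩, h2⟩
    exact (Nat.le_mul_of_pos_left i (by omega)).trans h2
  · intro i _
    rfl

end

end Pool.Agent.Work.ES.EPC

namespace Pool.Agent.Work.ES

open Finset Polynomial Pool.Agent.Work.TC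

theorem stmt_EPC : Stmt_EPC := by
  intro F _ _ χ m hm
  classical
  have hL : (m : ℂ) * msumC χ m = ∑ π ∈ TC.EP.P F m, (π.natDegree : ℂ) *
      ∑ i ∈ Icc 1 m, if i * π.natDegree ≤ m then
        χ π ^ i * msumC χ (m - i * π.natDegree) else 0 := by
    rw [EPC.msum_eq, Finset.mul_sum]
    have h1 : ∀ h ∈ TC.EP.M F m, (m : ℂ) * χ h = ∑ π ∈ TC.EP.P F m, (π.natDegree : ℂ) *
        ∑ i ∈ Icc 1 m, if π ^ i ∣ h then χ h else 0 := by
      intro h hh
      have h2 : (m : ℂ) = ∑ π ∈ TC.EP.P F m, (π.natDegree : ℂ) *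
          (((Finset.Icc 1 m).filter fun i => π ^ i ∣ h).card : ℂ) := by
        have := congrArg (fun t : ℕ => (t : ℂ)) (TC.EP.deg_eq hh)
        push_cast at this
        exact this
      rw [show (m : ℂ) * χ h = (∑ π ∈ TC.EP.P F m, (π.natDegree : ℂ) *
          (((Finset.Icc 1 m).filter fun i => π ^ i ∣ h).card : ℂ)) * χ h by rw [← h2],
        Finset.sum_mul]
      refine Finset.sum_congr rfl fun π _ => ?_
      rw [← Finset.sum_filter, Finset.sum_const, nsmul_eq_mul]
      ring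
    rw [Finset.sum_congr rfl h1, Finset.sum_comm]
    refine Finset.sum_congr rfl fun π hπ => ?_
    rw [← Finset.mul_sum, Finset.sum_comm]
    congr 1
    refine Finset.sum_congr rfl fun i _ => ?_
    exact EPC.sum_dvd χ (TC.EP.mem_P.mp hπ).1
  have hR : ∑ k ∈ Icc 1 m, lamC χ k * msumC χ (m - k) = ∑ π ∈ TC.EP.P F m, (π.natDegree : ℂ) *
      ∑ i ∈ Icc 1 m, if i * π.natDegree ≤ m then
        χ π ^ i * msumC χ (m - i * π.natDegree) else 0 := by
    have h1 : ∀ k ∈ Icc 1 m, lamC χ k * msumC χ (m - k) = ∑ π ∈ TC.EP.P F m,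
        (π.natDegree : ℂ) * if π.natDegree ∣ k then
          χ π ^ (k / π.natDegree) * msumC χ (m - k) else 0 := by
      intro k hk
      rw [Finset.mem_Icc] at hk
      rw [EPC.lam_eq χ hk.1 hk.2, Finset.sum_mul]
      refine Finset.sum_congr rfl fun π _ => ?_
      split_ifs <;> ring
    rw [Finset.sum_congr rfl h1, Finset.sum_comm]
    refine Finset.sum_congr rfl fun π hπ => ?_
    have hd : 1 ≤ π.natDegree := (TC.EP.mem_P.mp hπ).2.1.natDegree_pos
    rw [← Finset.mul_sum,
      EPC.sum_mult hd fun k => χ π ^ (k / π.natDegree) * msumC χ (m - k)]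
    congr 1
    refine Finset.sum_congr rfl fun i _ => ?_
    rw [Nat.mul_div_cancel _ (by omega)]
  rw [hL, hR]


end Pool.Agent.Work.ES
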